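import Mathlib
import Pool.Agent.H.MP_f651fd_an.A

namespace Pool.Agent.Results.MP_f651fd_an.NoCompact

open Filter Topology Pool.Agent.H.MP_f651fd_an
open scoped BoundedContinuousFunction ComplexOrder InnerProductSpace

variable {H : Type*} [NormedAddCommGroup H] [InnerProductSpace ℂ H] [CompleteSpace H]
  {L : (ℕ →ᵇ ℂ) →ₗ[ℂ] ℂ} {T A : H →L[ℂ] H} {M : ℝ}

lemma low (hL : IsBanachLimit L) (h : IsAsLim L T A) (hM : ∀ n : ℕ, ‖T ^ n‖ ≤ M)
    (hA : A.IsPositive) (hi : Function.Injective A) (hc : IsCompactOperator A) (x : H) (n : ℕ) :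
    ‖x‖ ≤ M * ‖(T ^ n) x‖ := by
  have h0 : 0 ≤ A := (A.nonneg_iff_isPositive).2 hA
  set B := CFC.sqrt A
  have hB : ∀ u v, ⟪u, A v⟫_ℂ = ⟪B u, B v⟫_ℂ := fun u v => by
    rw [← CFC.sqrt_mul_sqrt_self A h0, mul_apply_eq_comp]
    exact ((CFC.sqrt_nonneg A).isSelfAdjoint.isSymmetric u _).symm
  have rec' : ∀ ε > 0, ∃ k ≥ n, ‖B ((T ^ k) x - x)‖ ≤ ε := by
    intro ε hε
    obtain ⟨K, hK, hK'⟩ := IsCompactOperator.image_closedBall_subset_compact
      (f := (A : H →ₗ[ℂ] H)) hc (M * ‖x‖)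
    obtain ⟨a, -, φ, hφ, ha⟩ := hK.tendsto_subseq (x := fun j => A ((T ^ (j * (n + 1))) x))
      fun j => hK' ⟨_, mem_closedBall_zero_iff.2 (pb hM _ x), rfl⟩
    have hC : 0 < 2 * (M * ‖x‖) + 1 := by linarith [norm_nonneg ((T ^ 0) x), pb hM 0 x]
    obtain ⟨N, hN⟩ := Metric.cauchySeq_iff'.1 ha.cauchySeq (ε ^ 2 / (2 * (M * ‖x‖) + 1))
      (by positivity)
    have h1 := hN (N + 1) N.le_succ
    obtain ⟨d, hd⟩ := Nat.exists_eq_add_of_lt (hφ N.lt_succ_self)
    refine ⟨(d + 1) * (n + 1), by nlinarith, le_of_sq_le_sq ?_ hε.le⟩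
    have h2 := inv hL h (φ N * (n + 1)) ((T ^ ((d + 1) * (n + 1))) x - x)
      ((T ^ ((d + 1) * (n + 1))) x - x)
    rw [hB _ (_ - x), inner_self_eq_norm_sq_to_K, map_sub, ← mul_apply_eq_comp, ← pow_add,
      show φ N * (n + 1) + (d + 1) * (n + 1) = φ (N + 1) * (n + 1) by
        rw [show φ (N + 1) = _ from hd]; ring] at h2
    have h3 := congrArg norm h2
    rw [norm_pow, RCLike.norm_ofReal, abs_norm] at h3
    rw [← h3]
    refine (norm_inner_le_norm _ _).trans ?_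
    rw [dist_eq_norm, lt_div_iff₀' hC] at h1
    refine le_trans (mul_le_mul_of_nonneg_right ((norm_sub_le _ _).trans ?_) (norm_nonneg _))
      (by rw [map_sub]; exact h1.le)
    linarith [pb hM (φ (N + 1) * (n + 1)) x, pb hM (φ N * (n + 1)) x]
  have key : ∀ y, ‖⟪A y, x⟫_ℂ‖ ≤ ‖A y‖ * (M * ‖(T ^ n) x‖) := fun y => by
    refine le_of_forall_pos_le_add fun ε hε => ?_
    obtain ⟨k, hk, h1⟩ := rec' (ε / (‖B y‖ + 1)) (by positivity)
    have h2 : ⟪A y, x⟫_ℂ = ⟪A y, (T ^ k) x⟫_ℂ - ⟪B y, B ((T ^ k) x - x)⟫_ℂ := by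
      rw [← hB, ← hA.inner_left_eq_inner_right, inner_sub_right]
      simp
    rw [h2]
    refine (norm_sub_le _ _).trans (add_le_add ((norm_inner_le_norm _ _).trans ?_)
      ((norm_inner_le_norm _ _).trans ?_))
    · obtain ⟨d, rfl⟩ := Nat.exists_eq_add_of_le' hk
      rw [pow_add, mul_apply_eq_comp]
      exact mul_le_mul_of_nonneg_left (pb hM _ _) (norm_nonneg _)
    · rw [le_div_iff₀ (by positivity)] at h1
      nlinarith [norm_nonneg (B ((T ^ k) x - x))]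
  have hd : Dense (A.range : Set H) := by
    rw [Submodule.dense_iff_topologicalClosure_eq_top, Submodule.topologicalClosure_eq_top_iff,
      A.orthogonal_range, hA.isSelfAdjoint.adjoint_eq]
    exact LinearMap.ker_eq_bot.2 hi
  have h3 : ‖⟪x, x⟫_ℂ‖ ≤ ‖x‖ * (M * ‖(T ^ n) x‖) :=
    closure_minimal (t := {z | ‖⟪z, x⟫_ℂ‖ ≤ ‖z‖ * (M * ‖(T ^ n) x‖)})
      (by rintro _ ⟨y, rfl⟩; exact key y) (isClosed_le (by fun_prop) (by fun_prop)) (hd x)
  rw [inner_self_eq_norm_sq_to_K, norm_pow, RCLike.norm_ofReal, abs_norm, _root_.sq] at h3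
  rcases (norm_nonneg x).eq_or_lt with e | e
  · simp [norm_eq_zero.1 e.symm]
  · exact le_of_mul_le_mul_left h3 e

theorem result {H : Type*} [NormedAddCommGroup H] [InnerProductSpace ℂ H] [CompleteSpace H]
    (hH : ¬ FiniteDimensional ℂ H) (L : (ℕ →ᵇ ℂ) →ₗ[ℂ] ℂ) (hL : IsBanachLimit L)
    (A : H →L[ℂ] H) (hA : A.IsPositive) (hi : Function.Injective A) (hc : IsCompactOperator A) :
    ¬ ∃ T : H →L[ℂ] H, IsAsLim L T A := by
  rintro ⟨T, h⟩
  obtain ⟨M, hM⟩ := h.1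
  have hM' : ∀ n : ℕ, ‖T ^ n‖ ≤ (M.toNNReal + 1 : NNReal) := fun n =>
    (hM n).trans ((Real.le_coe_toNNReal M).trans (by simp))
  set C : NNReal := M.toNNReal + 1
  have hC : (0 : ℝ) < C := by positivity
  have ha : AntilipschitzWith (C ^ 2) A := AddMonoidHomClass.antilipschitz_of_bound A fun x => by
    have h1 : (((‖x‖ / C) ^ 2 : ℝ) : ℂ) ≤ ⟪x, A x⟫_ℂ := by
      rw [h.2 _ _ (sq hM 1 _ _) fun _ => rfl]
      refine Lge hL fun n => ?_
      rw [sq_app, one_apply_eq_self, inner_self_eq_norm_sq_to_K]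
      have := low hL h hM' hA hi hc x n
      rw [← div_le_iff₀' hC] at this
      rw [← RCLike.ofReal_pow]
      exact Complex.real_le_real.2 (pow_le_pow_left₀ (by positivity) this 2)
    have h2 := (Complex.le_def.1 h1).1
    have h3 := (Complex.re_le_norm _).trans (norm_inner_le_norm (𝕜 := ℂ) x (A x))
    rw [Complex.ofReal_re, div_pow, div_le_iff₀ (by positivity)] at h2
    rcases (norm_nonneg x).eq_or_lt with e | e
    · rw [← e]; positivity
    · push_cast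
      refine le_of_mul_le_mul_left ?_ e
      nlinarith [mul_le_mul_of_nonneg_right h3 (sq_nonneg (C : ℝ))]
  obtain ⟨K, hK, hK'⟩ := hc
  exact hH (.of_totallyBounded_nhds_zero ℂ hK' (totallyBounded_preimage
    (ha.isUniformInducing A.uniformContinuous) hK.totallyBounded))

end Pool.Agent.Results.MP_f651fd_an.NoCompact
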